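import Pool.Agent.H9.Fcc

set_option autoImplicit false

namespace Pool.Agent.Results.MP_b59a08_co.Triplets

open Classical in
theorem result : ∀ k : ℕ, 3 ≤ k → ∃ P : Finset (EuclideanSpace ℝ (Fin 3)),
    (P.card : ℝ) = (2 * (k : ℝ) ^ 3 + k) / 3 ∧
    (∀ x ∈ P, ∀ y ∈ P, x ≠ y → 2 ≤ dist x y) ∧
    4 / 3 * ((k : ℝ) - 1) * k * (4 * k - 5) < (((P.powersetCard 3).filter
      (fun T => ∀ x ∈ T, ∀ y ∈ T, x ≠ y → dist x y = 2)).card : ℝ) := by
  intro k hk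
  obtain ⟨P, h1, h2, h3⟩ := Pool.Agent.H9.Fcc.triplets k hk
  refine ⟨P, ?_, h2, ?_⟩
  · have : (3 : ℝ) * P.card = 2 * (k : ℝ) ^ 3 + k := by exact_mod_cast h1
    linarith
  · have := (Int.cast_lt (R := ℝ)).2 h3
    push_cast at this
    linarith

end Pool.Agent.Results.MP_b59a08_co.Triplets
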